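import Mathlib
import Pool.Agent.Erdos456.Mertens

set_option autoImplicit false

namespace Pool.Agent.H532R3.LW

open Finset

open Classical in
/-- squarefree numbers up to `y` whose prime factors are larger than `q` and do not divide `r` -/
noncomputable def GG (q r y : ℕ) : Finset ℕ :=
  (Icc 1 y).filter (fun g => Squarefree g ∧ ∀ l, l.Prime → l ∣ g → q < l ∧ ¬ l ∣ r)

open Classical in
/-- the excluded primes -/
noncomputable def QQ (q r y : ℕ) : Finset ℕ :=
  (Icc 1 y).filter (fun p => p.Prime ∧ (p ≤ q ∨ p ∣ r))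

open Classical in
lemma mem_GG {q r y g : ℕ} : g ∈ GG q r y ↔ (1 ≤ g ∧ g ≤ y) ∧ Squarefree g ∧
    ∀ l, l.Prime → l ∣ g → q < l ∧ ¬ l ∣ r := by
  unfold GG
  rw [mem_filter, mem_Icc]

open Classical in
lemma mem_QQ {q r y g : ℕ} : g ∈ QQ q r y ↔ (1 ≤ g ∧ g ≤ y) ∧ g.Prime ∧ (g ≤ q ∨ g ∣ r) := by
  unfold QQ
  rw [mem_filter, mem_Icc]

lemma harm_le (q r y : ℕ) : ∑ n ∈ Icc 1 y, (1 : ℝ) / n ≤
    (∑ b ∈ Icc 1 y, (1 : ℝ) / (b : ℝ) ^ 2) * (∏ p ∈ QQ q r y, (1 + 1 / (p : ℝ))) *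
      ∑ g ∈ GG q r y, (1 : ℝ) / g := by
  classical
  choose a b hab hsq using fun n : ℕ => Nat.sq_mul_squarefree n
  let e : ℕ → ℕ × Finset ℕ × ℕ := fun n => (b n, (a n).primeFactors.filter (fun p => p ∈ QQ q r y),
    ∏ p ∈ (a n).primeFactors.filter (fun p => ¬ p ∈ QQ q r y), p)
  let φ : ℕ × Finset ℕ × ℕ → ℝ := fun x =>
    (1 / (x.1 : ℝ) ^ 2) * ((∏ p ∈ x.2.1, (1 / (p : ℝ))) * (1 / (x.2.2 : ℝ)))
  let ψ : ℕ × Finset ℕ × ℕ → ℕ := fun x => x.1 ^ 2 * ((∏ p ∈ x.2.1, p) * x.2.2)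
  have hψ : ∀ n, ψ (e n) = n := by
    intro n
    simp only [ψ, e]
    rw [Finset.prod_filter_mul_prod_filter_not, Nat.prod_primeFactors_of_squarefree (hsq n), hab]
  have hφ : ∀ n, φ (e n) = 1 / (n : ℝ) := by
    intro n
    have h1 : ((ψ (e n) : ℕ) : ℝ) = n := by rw [hψ]
    rw [← h1]
    simp only [φ, ψ]
    push_cast
    rw [Finset.prod_div_distrib, Finset.prod_const_one]
    rw [one_div_mul_one_div, one_div_mul_one_div]
  have hinj : Set.InjOn e (Icc 1 y : Finset ℕ) := by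
    intro n _ n' _ h
    have := congrArg ψ h
    rwa [hψ, hψ] at this
  have hmem : ∀ n ∈ Icc 1 y, e n ∈ (Icc 1 y) ×ˢ ((QQ q r y).powerset ×ˢ (GG q r y)) := by
    intro n hn
    rw [mem_Icc] at hn
    have hn0 : 0 < n := by omega
    have hb0 : b n ≠ 0 := by
      intro h
      have := hab n
      rw [h] at this
      simp at this
      omega
    have ha0 : a n ≠ 0 := by
      intro h
      have := hab n
      rw [h] at this
      simp at this
      omega
    have han : a n ∣ n := Dvd.intro_left (b n ^ 2) (hab n)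
    have hby : b n ≤ y := by
      have h1 : b n ∣ n := Dvd.intro (b n * a n) (by rw [← mul_assoc, ← pow_two]; exact hab n)
      exact (Nat.le_of_dvd hn0 h1).trans hn.2
    have hgd : (∏ p ∈ (a n).primeFactors.filter (fun p => ¬ p ∈ QQ q r y), p) ∣ a n := by
      have h1 := Finset.prod_filter_mul_prod_filter_not (a n).primeFactors
        (fun p => p ∈ QQ q r y) (fun p => p)
      rw [Nat.prod_primeFactors_of_squarefree (hsq n)] at h1
      exact Dvd.intro_left _ h1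
    rw [mem_product, mem_product, mem_Icc, mem_powerset, mem_GG]
    refine ⟨⟨Nat.one_le_iff_ne_zero.mpr hb0, hby⟩, ?_, ⟨?_, ?_⟩, ?_, ?_⟩
    · intro p hp
      exact (mem_filter.mp hp).2
    · refine Nat.one_le_iff_ne_zero.mpr fun h => ha0 ?_
      have h1 : (∏ p ∈ (a n).primeFactors.filter (fun p => ¬ p ∈ QQ q r y), p) = 0 := h
      rw [h1] at hgd
      exact Nat.eq_zero_of_zero_dvd hgd
    · exact (Nat.le_of_dvd hn0 (hgd.trans han)).trans hn.2
    · exact (hsq n).squarefree_of_dvd hgd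
    · intro l hl hlg
      have h1 : ∃ p ∈ (a n).primeFactors.filter (fun p => ¬ p ∈ QQ q r y), l ∣ p :=
        (Prime.dvd_finsetProd_iff hl.prime _).mp hlg
      obtain ⟨p, hp, hlp⟩ := h1
      rw [mem_filter] at hp
      have hpp : p.Prime := Nat.prime_of_mem_primeFactors hp.1
      have hlp' : l = p := (Nat.prime_dvd_prime_iff_eq hl hpp).mp hlp
      subst hlp'
      have hly : l ≤ y := (Nat.le_of_dvd hn0 ((Nat.dvd_of_mem_primeFactors hp.1).trans han)).trans
        hn.2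
      have h2 := hp.2
      rw [mem_QQ] at h2
      push Not at h2
      exact h2 ⟨hl.one_lt.le, hly⟩ hl
  calc ∑ n ∈ Icc 1 y, (1 : ℝ) / n = ∑ n ∈ Icc 1 y, φ (e n) :=
        Finset.sum_congr rfl fun n _ => (hφ n).symm
    _ = ∑ x ∈ (Icc 1 y).image e, φ x := (Finset.sum_image hinj).symm
    _ ≤ ∑ x ∈ (Icc 1 y) ×ˢ ((QQ q r y).powerset ×ˢ (GG q r y)), φ x := by
        apply Finset.sum_le_sum_of_subset_of_nonneg
        · intro x hx
          obtain ⟨n, hn, rfl⟩ := mem_image.mp hx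
          exact hmem n hn
        · intro x _ _
          simp only [φ]
          positivity
    _ = (∑ b ∈ Icc 1 y, (1 : ℝ) / (b : ℝ) ^ 2) * (∏ p ∈ QQ q r y, (1 + 1 / (p : ℝ))) *
      ∑ g ∈ GG q r y, (1 : ℝ) / g := by
        rw [Finset.sum_product, mul_assoc, Finset.sum_mul]
        refine Finset.sum_congr rfl fun b _ => ?_
        simp only [φ]
        rw [← Finset.mul_sum, Finset.sum_product, Finset.prod_one_add, Finset.sum_mul_sum]

lemma inv_sq_le (y : ℕ) : ∑ b ∈ Icc 1 y, (1 : ℝ) / (b : ℝ) ^ 2 ≤ 2 := by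
  rcases Nat.eq_zero_or_pos y with rfl | hy
  · simp
  have h1 : Icc 1 y = insert 1 (Ioc 1 y) := by
    ext x; simp only [mem_Icc, mem_insert, mem_Ioc]; omega
  rw [h1, Finset.sum_insert (by simp)]
  have h2 := sum_Ioc_inv_sq_le_sub (α := ℝ) (k := 1) (n := y) one_ne_zero hy
  have h3 : ∑ b ∈ Ioc 1 y, (1 : ℝ) / (b : ℝ) ^ 2 = ∑ b ∈ Ioc 1 y, ((b : ℝ) ^ 2)⁻¹ := by
    refine Finset.sum_congr rfl fun b _ => ?_
    rw [one_div]
  rw [h3]
  have h4 : (0 : ℝ) ≤ ((y : ℝ))⁻¹ := by positivity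
  norm_num at h2 ⊢
  linarith

lemma omega_le {r k : ℕ} (hr : 0 < r) (hrk : r < 2 ^ k) : r.primeFactors.card ≤ k := by
  have h1 : 2 ^ r.primeFactors.card ≤ ∏ p ∈ r.primeFactors, p :=
    Finset.pow_card_le_prod _ _ _ fun p hp => (Nat.prime_of_mem_primeFactors hp).two_le
  have h2 : ∏ p ∈ r.primeFactors, p ≤ r := Nat.le_of_dvd hr (Nat.prod_primeFactors_dvd r)
  have h3 : 2 ^ r.primeFactors.card < 2 ^ k := lt_of_le_of_lt (h1.trans h2) hrk
  exact ((Nat.pow_lt_pow_iff_right (by norm_num)).mp h3).le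

lemma prodQ_le : ∃ C : ℝ, 0 < C ∧ ∀ (q r y k : ℕ), 3 ≤ q → k ≤ q → 0 < r → r < 2 ^ k →
    ∏ p ∈ QQ q r y, (1 + 1 / (p : ℝ)) ≤ C * Real.log q := by
  classical
  obtain ⟨C, hC⟩ := Pool.Agent.Erdos456.Mert.mertens_inv
  refine ⟨Real.exp (C + 1), Real.exp_pos _, ?_⟩
  intro q r y k hq hk hr hrk
  have hq0 : (3 : ℝ) ≤ q := by exact_mod_cast hq
  have hlog : 1 < Real.log q := by
    rw [Real.lt_log_iff_exp_lt (by linarith)]
    have := Real.exp_one_lt_d9
    linarith
  have h1 : ∏ p ∈ QQ q r y, (1 + 1 / (p : ℝ)) ≤ Real.exp (∑ p ∈ QQ q r y, 1 / (p : ℝ)) := by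
    rw [Real.exp_sum]
    apply Finset.prod_le_prod
    · intro p _; positivity
    · intro p _
      have := Real.add_one_le_exp (1 / (p : ℝ))
      linarith
  have hsub : QQ q r y ⊆ (Icc 1 q).filter Nat.Prime ∪ r.primeFactors.filter (fun p => q < p) := by
    intro p hp
    rw [mem_QQ] at hp
    rw [mem_union, mem_filter, mem_filter, mem_Icc]
    by_cases h : p ≤ q
    · exact Or.inl ⟨⟨hp.1.1, h⟩, hp.2.1⟩
    · right
      refine ⟨?_, by omega⟩
      rw [Nat.mem_primeFactors]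
      exact ⟨hp.2.1, (hp.2.2.resolve_left h), hr.ne'⟩
  have h2 : ∑ p ∈ QQ q r y, 1 / (p : ℝ) ≤ Real.log (Real.log q) + (C + 1) := by
    calc ∑ p ∈ QQ q r y, 1 / (p : ℝ)
        ≤ ∑ p ∈ (Icc 1 q).filter Nat.Prime ∪ r.primeFactors.filter (fun p => q < p),
            1 / (p : ℝ) := by
          apply Finset.sum_le_sum_of_subset_of_nonneg hsub
          intro p _ _; positivity
      _ ≤ ∑ p ∈ (Icc 1 q).filter Nat.Prime, 1 / (p : ℝ) +
            ∑ p ∈ r.primeFactors.filter (fun p => q < p), 1 / (p : ℝ) := by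
          rw [← Finset.sum_union_inter]
          have : 0 ≤ ∑ p ∈ (Icc 1 q).filter Nat.Prime ∩ r.primeFactors.filter (fun p => q < p),
              1 / (p : ℝ) := Finset.sum_nonneg fun p _ => by positivity
          linarith
      _ ≤ (Real.log (Real.log q) + C) + 1 := by
          apply add_le_add
          · have := (abs_le.mp (hC q hq)).2
            linarith
          · have h3 : ∀ p ∈ r.primeFactors.filter (fun p => q < p), 1 / (p : ℝ) ≤ 1 / q := by
              intro p hp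
              rw [mem_filter] at hp
              apply one_div_le_one_div_of_le (by linarith)
              exact_mod_cast hp.2.le
            have h4 := Finset.sum_le_card_nsmul _ _ _ h3
            refine h4.trans ?_
            rw [nsmul_eq_mul]
            have h5 : ((r.primeFactors.filter (fun p => q < p)).card : ℝ) ≤ q := by
              exact_mod_cast (Finset.card_filter_le _ _).trans ((omega_le hr hrk).trans hk)
            rw [mul_one_div, div_le_one (by linarith)]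
            exact h5
      _ = Real.log (Real.log q) + (C + 1) := by ring
  refine h1.trans ((Real.exp_le_exp.mpr h2).trans (le_of_eq ?_))
  rw [Real.exp_add, Real.exp_log (by linarith), mul_comm]

theorem S_lower : ∃ c : ℝ, 0 < c ∧ ∃ q₀ : ℕ, ∀ q : ℕ, q₀ ≤ q → ∀ k r : ℕ, k ≤ q → 0 < r →
    r < 2 ^ k → c * (q / Real.log q) ≤ ∑ g ∈ GG q r (2 ^ (q / 128)), (1 : ℝ) / g := by
  obtain ⟨C, hC0, hC⟩ := prodQ_le
  refine ⟨Real.log 2 / (256 * (2 * C)), by have := Real.log_pos one_lt_two; positivity, 256, ?_⟩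
  intro q hq k r hk hr hrk
  have hq0 : (256 : ℝ) ≤ q := by exact_mod_cast hq
  have hlog : 0 < Real.log q := Real.log_pos (by linarith)
  have h1 := harm_le q r (2 ^ (q / 128))
  have h2 := inv_sq_le (2 ^ (q / 128))
  have h3 := hC q r (2 ^ (q / 128)) k (by omega) hk hr hrk
  have hS0 : 0 ≤ ∑ g ∈ GG q r (2 ^ (q / 128)), (1 : ℝ) / g :=
    Finset.sum_nonneg fun g _ => by positivity
  have hP0 : 0 ≤ ∏ p ∈ QQ q r (2 ^ (q / 128)), (1 + 1 / (p : ℝ)) :=
    Finset.prod_nonneg fun p _ => by positivity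
  have hlower : Real.log 2 * ((q : ℝ) / 256) ≤ ∑ n ∈ Icc 1 ((2 : ℕ) ^ (q / 128)), (1 : ℝ) / (n : ℝ) := by
    have h4 := log_add_one_le_harmonic (2 ^ (q / 128))
    have h5 : ((harmonic (2 ^ (q / 128)) : ℚ) : ℝ) = ∑ n ∈ Icc 1 ((2 : ℕ) ^ (q / 128)), (1 : ℝ) / (n : ℝ) := by
      rw [harmonic_eq_sum_Icc]
      push_cast
      refine Finset.sum_congr rfl fun n _ => ?_
      rw [one_div]
    rw [h5] at h4
    refine le_trans ?_ h4
    have h6 : Real.log ((2 : ℝ) ^ (q / 128)) ≤ Real.log (((2 ^ (q / 128) + 1 : ℕ)) : ℝ) := by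
      apply Real.log_le_log (by positivity)
      push_cast
      linarith
    refine le_trans ?_ h6
    rw [Real.log_pow, mul_comm]
    apply mul_le_mul_of_nonneg_right _ (Real.log_pos one_lt_two).le
    have h7 : q ≤ 256 * (q / 128) := by omega
    have h8 : (q : ℝ) ≤ 256 * ((q / 128 : ℕ) : ℝ) := by exact_mod_cast h7
    linarith
  have hupper : ∑ n ∈ Icc 1 ((2 : ℕ) ^ (q / 128)), (1 : ℝ) / (n : ℝ) ≤
      2 * (C * Real.log q) * ∑ g ∈ GG q r (2 ^ (q / 128)), (1 : ℝ) / g := by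
    refine h1.trans ?_
    apply mul_le_mul_of_nonneg_right _ hS0
    exact mul_le_mul h2 h3 hP0 (by norm_num)
  have h9 := hlower.trans hupper
  have e : Real.log 2 / (256 * (2 * C)) * ((q : ℝ) / Real.log q) =
      (Real.log 2 * ((q : ℝ) / 256)) / (2 * (C * Real.log q)) := by
    field_simp
  rw [e, div_le_iff₀ (by positivity)]
  linarith

end Pool.Agent.H532R3.LW
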