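import Pool.Agent.H532R3.LW.P1

set_option autoImplicit false

namespace Pool.Agent.H532R3.LW

open Finset

lemma GG_pos {q r y g : ℕ} (h : g ∈ GG q r y) : (0 : ℝ) < g := by
  rw [mem_GG] at h
  exact_mod_cast h.1.1

lemma prod_sum (s t : Finset ℕ) : ∑ x ∈ s ×ˢ t, (1 : ℝ) / x.1 * (1 / x.2) =
    (∑ g ∈ s, (1 : ℝ) / g) * ∑ g ∈ t, (1 : ℝ) / g := by
  rw [Finset.sum_mul_sum, Finset.sum_product]

/-- pairs with a common divisor `l` -/
lemma dvd_sum_le (q r y l : ℕ) (hl : 0 < l) :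
    ∑ g ∈ (GG q r y).filter (fun g => l ∣ g), (1 : ℝ) / g ≤
      (1 / (l : ℝ)) * ∑ g ∈ GG q r y, (1 : ℝ) / g := by
  classical
  rw [Finset.mul_sum]
  have h1 : ∑ g ∈ (GG q r y).filter (fun g => l ∣ g), (1 : ℝ) / g =
      ∑ g ∈ ((GG q r y).filter (fun g => l ∣ g)).image (fun g => g / l),
        (1 / (l : ℝ)) * (1 / (g : ℝ)) := by
    rw [Finset.sum_image]
    · refine Finset.sum_congr rfl fun g hg => ?_
      rw [mem_filter] at hg
      obtain ⟨h, rfl⟩ := hg.2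
      rw [Nat.mul_div_cancel_left _ hl, one_div_mul_one_div]
      push_cast
      rfl
    · intro g hg g' hg' h
      simp only [coe_filter, Set.mem_ofPred_eq] at hg hg'
      obtain ⟨a, rfl⟩ := hg.2
      obtain ⟨b, rfl⟩ := hg'.2
      simp only [Nat.mul_div_cancel_left _ hl] at h
      rw [h]
  rw [h1]
  apply Finset.sum_le_sum_of_subset_of_nonneg
  · intro x hx
    obtain ⟨g, hg, rfl⟩ := mem_image.mp hx
    rw [mem_filter, mem_GG] at hg
    obtain ⟨⟨⟨h2, h3⟩, h4, h5⟩, a, rfl⟩ := hg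
    rw [Nat.mul_div_cancel_left _ hl, mem_GG]
    have ha : a ∣ l * a := Dvd.intro_left _ rfl
    have ha0 : 0 < a := by
      rcases Nat.eq_zero_or_pos a with h | h
      · rw [h] at h2; simp at h2
      · exact h
    refine ⟨⟨ha0, (Nat.le_of_dvd (by positivity) ha).trans h3⟩, h4.squarefree_of_dvd ha, ?_⟩
    intro p hp hpa
    exact h5 p hp (hpa.trans ha)
  · intro x _ _
    positivity

lemma noncop_le (q r y : ℕ) (hq : 2 ≤ q) :
    ∑ x ∈ ((GG q r y) ×ˢ (GG q r y)).filter (fun x => ¬ Nat.Coprime x.1 x.2),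
      (1 : ℝ) / x.1 * (1 / x.2) ≤ (1 / 2) * (∑ g ∈ GG q r y, (1 : ℝ) / g) ^ 2 := by
  classical
  set S := ∑ g ∈ GG q r y, (1 : ℝ) / g with hS
  have hS0 : 0 ≤ S := Finset.sum_nonneg fun g _ => by positivity
  have hq0 : (2 : ℝ) ≤ q := by exact_mod_cast hq
  have key : ∑ x ∈ ((GG q r y) ×ˢ (GG q r y)).filter (fun x => ¬ Nat.Coprime x.1 x.2),
      (1 : ℝ) / x.1 * (1 / x.2) ≤
      ∑ l ∈ Ioc q y, ∑ x ∈ ((GG q r y).filter (fun g => l ∣ g)) ×ˢ
        ((GG q r y).filter (fun g => l ∣ g)), (1 : ℝ) / x.1 * (1 / x.2) := by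
    have e1 : ∀ l, ∑ x ∈ ((GG q r y).filter (fun g => l ∣ g)) ×ˢ
        ((GG q r y).filter (fun g => l ∣ g)), (1 : ℝ) / x.1 * (1 / x.2) =
        ∑ x ∈ (GG q r y) ×ˢ (GG q r y),
          if (l ∣ x.1 ∧ l ∣ x.2) then (1 : ℝ) / x.1 * (1 / x.2) else 0 := by
      intro l
      rw [← Finset.sum_filter]
      apply Finset.sum_congr _ fun _ _ => rfl
      ext x
      simp only [mem_product, mem_filter]
      tauto
    simp only [e1]
    rw [Finset.sum_comm]
    rw [Finset.sum_filter]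
    apply Finset.sum_le_sum
    intro x hx
    rw [mem_product, mem_GG, mem_GG] at hx
    by_cases hc : Nat.Coprime x.1 x.2
    · rw [if_neg (not_not.mpr hc)]
      refine Finset.sum_nonneg fun l _ => ?_
      split_ifs
      · positivity
      · exact le_refl _
    · rw [if_pos hc]
      obtain ⟨l, hl, h1, h2⟩ := Nat.Prime.not_coprime_iff_dvd.mp hc
      have hlq : q < l := (hx.1.2.2 l hl h1).1
      have hly : l ≤ y := (Nat.le_of_dvd (by omega) h1).trans hx.1.1.2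
      have hmem : l ∈ Ioc q y := mem_Ioc.mpr ⟨hlq, hly⟩
      calc (1 : ℝ) / x.1 * (1 / x.2)
          = (if (l ∣ x.1 ∧ l ∣ x.2) then (1 : ℝ) / x.1 * (1 / x.2) else 0) := by
            rw [if_pos ⟨h1, h2⟩]
        _ ≤ ∑ l ∈ Ioc q y, (if (l ∣ x.1 ∧ l ∣ x.2) then (1 : ℝ) / x.1 * (1 / x.2) else 0) := by
            refine Finset.single_le_sum (f := fun l =>
              (if (l ∣ x.1 ∧ l ∣ x.2) then (1 : ℝ) / x.1 * (1 / x.2) else 0)) (fun l _ => ?_) hmem
            split_ifs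
            · positivity
            · exact le_refl _
  refine key.trans ?_
  have h2 : ∀ l ∈ Ioc q y, ∑ x ∈ ((GG q r y).filter (fun g => l ∣ g)) ×ˢ
        ((GG q r y).filter (fun g => l ∣ g)), (1 : ℝ) / x.1 * (1 / x.2) ≤
        ((l : ℝ) ^ 2)⁻¹ * S ^ 2 := by
    intro l hl
    rw [mem_Ioc] at hl
    have hl0 : 0 < l := by omega
    rw [prod_sum]
    have h3 := dvd_sum_le q r y l hl0
    have h4 : 0 ≤ ∑ g ∈ (GG q r y).filter (fun g => l ∣ g), (1 : ℝ) / g :=
      Finset.sum_nonneg fun g _ => by positivity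
    calc (∑ g ∈ (GG q r y).filter (fun g => l ∣ g), (1 : ℝ) / g) *
          (∑ g ∈ (GG q r y).filter (fun g => l ∣ g), (1 : ℝ) / g)
        ≤ ((1 / (l : ℝ)) * S) * ((1 / (l : ℝ)) * S) := mul_le_mul h3 h3 h4 (by positivity)
      _ = ((l : ℝ) ^ 2)⁻¹ * S ^ 2 := by
          rw [one_div]
          ring
  refine (Finset.sum_le_sum h2).trans ?_
  rw [← Finset.sum_mul]
  apply mul_le_mul_of_nonneg_right _ (by positivity)
  rcases Nat.lt_or_ge y q with hyq | hyq
  · rw [Finset.Ioc_eq_empty (by omega)]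
    simp
  · have h5 := sum_Ioc_inv_sq_le_sub (α := ℝ) (k := q) (n := y) (by omega) hyq
    refine h5.trans ?_
    have h6 : (0 : ℝ) ≤ ((y : ℝ))⁻¹ := by positivity
    have h7 : ((q : ℝ))⁻¹ ≤ 1 / 2 := by
      rw [← one_div]
      exact one_div_le_one_div_of_le (by norm_num) hq0
    linarith

/-- coprime pairs against the divisor weights -/
lemma cop_le (q r y z : ℕ) (hyz : y * y ≤ z) :
    ∑ x ∈ ((GG q r y) ×ˢ (GG q r y)).filter (fun x => Nat.Coprime x.1 x.2),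
      (1 : ℝ) / x.1 * (1 / x.2) ≤ ∑ e ∈ GG q r z, (2 : ℝ) ^ e.primeFactors.card / e := by
  classical
  have hmaps : ∀ x ∈ ((GG q r y) ×ˢ (GG q r y)).filter (fun x => Nat.Coprime x.1 x.2),
      x.1 * x.2 ∈ GG q r z := by
    intro x hx
    rw [mem_filter, mem_product, mem_GG, mem_GG] at hx
    obtain ⟨⟨⟨⟨a1, a2⟩, a3, a4⟩, ⟨b1, b2⟩, b3, b4⟩, hc⟩ := hx
    rw [mem_GG]
    refine ⟨⟨Nat.mul_pos a1 b1, (Nat.mul_le_mul a2 b2).trans hyz⟩,
      (Nat.squarefree_mul hc).mpr ⟨a3, b3⟩, ?_⟩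
    intro l hl hd
    rcases (Nat.Prime.dvd_mul hl).mp hd with h | h
    · exact a4 l hl h
    · exact b4 l hl h
  rw [← Finset.sum_fiberwise_of_maps_to (g := fun x : ℕ × ℕ => x.1 * x.2) hmaps]
  apply Finset.sum_le_sum
  intro e he
  have he0 := GG_pos he
  rw [mem_GG] at he
  have h1 : ∀ x ∈ (((GG q r y) ×ˢ (GG q r y)).filter (fun x => Nat.Coprime x.1 x.2)).filter
      (fun x : ℕ × ℕ => x.1 * x.2 = e), (1 : ℝ) / x.1 * (1 / x.2) = 1 / e := by
    intro x hx
    rw [mem_filter] at hx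
    rw [one_div_mul_one_div, ← hx.2]
    push_cast
    rfl
  rw [Finset.sum_congr rfl h1, Finset.sum_const, nsmul_eq_mul, mul_one_div]
  apply div_le_div_of_nonneg_right _ he0.le
  have h2 : ((((GG q r y) ×ˢ (GG q r y)).filter (fun x => Nat.Coprime x.1 x.2)).filter
      (fun x : ℕ × ℕ => x.1 * x.2 = e)).card ≤ e.primeFactors.powerset.card := by
    apply Finset.card_le_card_of_injOn (fun x : ℕ × ℕ => x.1.primeFactors)
    · intro x hx
      simp only [coe_filter, Set.mem_ofPred_eq] at hx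
      simp only [coe_powerset, Set.mem_preimage, Set.mem_powerset_iff]
      intro p hp
      have hp' : p ∈ x.1.primeFactors := hp
      have : x.1 ∣ e := Dvd.intro _ hx.2
      exact_mod_cast Nat.primeFactors_mono this (by omega) hp'
    · intro x hx x' hx' h
      simp only [coe_filter, Set.mem_ofPred_eq, mem_filter, mem_product, mem_GG] at hx hx'
      simp only at h
      have e1 : x.1 = x'.1 := by
        rw [← Nat.prod_primeFactors_of_squarefree hx.1.1.1.2.1,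
          ← Nat.prod_primeFactors_of_squarefree hx'.1.1.1.2.1, h]
      have e2 : x.2 = x'.2 := by
        have h3 := hx.2.trans hx'.2.symm
        rw [e1] at h3
        exact Nat.eq_of_mul_eq_mul_left (by omega) h3
      exact Prod.ext e1 e2
  rw [Finset.card_powerset] at h2
  exact_mod_cast h2

theorem W_lower (q r y z : ℕ) (hq : 2 ≤ q) (hyz : y * y ≤ z) :
    (1 / 2) * (∑ g ∈ GG q r y, (1 : ℝ) / g) ^ 2 ≤
      ∑ e ∈ GG q r z, (2 : ℝ) ^ e.primeFactors.card / e := by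
  classical
  have h1 := cop_le q r y z hyz
  have h2 := noncop_le q r y hq
  have h3 := Finset.sum_filter_add_sum_filter_not ((GG q r y) ×ˢ (GG q r y))
    (fun x => Nat.Coprime x.1 x.2) (fun x => (1 : ℝ) / x.1 * (1 / x.2))
  have h4 : ∑ x ∈ (GG q r y) ×ˢ (GG q r y), (1 : ℝ) / x.1 * (1 / x.2) =
      (∑ g ∈ GG q r y, (1 : ℝ) / g) ^ 2 := by
    rw [prod_sum, pow_two]
  rw [h4] at h3
  linarith

end Pool.Agent.H532R3.LW
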